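import Mathlib

/-!
# A real counterexample to Murthy's conjecture `μ(I) = μ(I/I²)`

`J = (x²+y²+z²-1, u, v) ∩ (x, y, z) ⊆ ℝ[x,y,z,u,v]` has `μ(J/J²) = 3` and `μ(J) = 4`.

If `J = (F₁,F₂,F₃)` then on `u = v = 0` we have `F = (r²-1) G`, where `G` generates the ideal
`(x,y,z)`, so that on the unit sphere `G` is homotopic to an invertible linear map `L` through
nowhere vanishing maps (`G(tp)/t`).  On the sphere `G` and `P = ∂F/∂u` are linearly independent,
so `G` is homotopic to `-G`.  Hence `L` and `-L` have the same degree on the sphere, which is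
absurd.  The homotopy invariance of the degree (the integral of the solid angle form) is proved
with the divergence theorem on the box `[0,1] × [0,π] × [0,2π]`.
-/

set_option autoImplicit false

open MeasureTheory Set

namespace Pool.Agent.Results.MP_260cc8_ag.RealCounterexample

/-- the determinant of three vectors of `ℝ³` -/
noncomputable def D (a b c : Fin 3 → ℝ) : ℝ :=
  a 0 * (b 1 * c 2 - b 2 * c 1) - a 1 * (b 0 * c 2 - b 2 * c 0) + a 2 * (b 0 * c 1 - b 1 * c 0)

noncomputable def nsq (a : Fin 3 → ℝ) : ℝ := a 0 ^ 2 + a 1 ^ 2 + a 2 ^ 2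

noncomputable def dot (a b : Fin 3 → ℝ) : ℝ := a 0 * b 0 + a 1 * b 1 + a 2 * b 2

lemma D_eq_zero_of_orth {n a b c : Fin 3 → ℝ} (hn : nsq n = 1) (ha : dot n a = 0)
    (hb : dot n b = 0) (hc : dot n c = 0) : D a b c = 0 := by
  unfold nsq dot D at *
  linear_combination (-(a 0 * (b 1 * c 2 - b 2 * c 1) - a 1 * (b 0 * c 2 - b 2 * c 0)
      + a 2 * (b 0 * c 1 - b 1 * c 0))) * hn
    + (n 0 * (b 1 * c 2 - b 2 * c 1) - n 1 * (b 0 * c 2 - b 2 * c 0)
      + n 2 * (b 0 * c 1 - b 1 * c 0)) * ha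
    - (n 0 * (a 1 * c 2 - a 2 * c 1) - n 1 * (a 0 * c 2 - a 2 * c 0)
      + n 2 * (a 0 * c 1 - a 1 * c 0)) * hb
    + (n 0 * (a 1 * b 2 - a 2 * b 1) - n 1 * (a 0 * b 2 - a 2 * b 0)
      + n 2 * (a 0 * b 1 - a 1 * b 0)) * hc

lemma hasFDerivAt_D {E : Type*} [NormedAddCommGroup E] [NormedSpace ℝ E]
    {u v w : E → Fin 3 → ℝ} {u' v' w' : E →L[ℝ] (Fin 3 → ℝ)} {x : E}
    (hu : HasFDerivAt u u' x) (hv : HasFDerivAt v v' x) (hw : HasFDerivAt w w' x) :
    ∃ F' : E →L[ℝ] ℝ, HasFDerivAt (fun y => D (u y) (v y) (w y)) F' x ∧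
      ∀ h, F' h = D (u' h) (v x) (w x) + D (u x) (v' h) (w x) + D (u x) (v x) (w' h) := by
  have U := fun i => hasFDerivAt_pi'.1 hu i
  have V := fun i => hasFDerivAt_pi'.1 hv i
  have W := fun i => hasFDerivAt_pi'.1 hw i
  refine ⟨_, (((U 0).mul (((V 1).mul (W 2)).sub ((V 2).mul (W 1)))).sub
    ((U 1).mul (((V 0).mul (W 2)).sub ((V 2).mul (W 0))))).add
    ((U 2).mul (((V 0).mul (W 1)).sub ((V 1).mul (W 0)))), ?_⟩
  intro h
  simp [D]
  ring

lemma hasFDerivAt_nsq {E : Type*} [NormedAddCommGroup E] [NormedSpace ℝ E]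
    {u : E → Fin 3 → ℝ} {u' : E →L[ℝ] (Fin 3 → ℝ)} {x : E}
    (hu : HasFDerivAt u u' x) :
    ∃ F' : E →L[ℝ] ℝ, HasFDerivAt (fun y => nsq (u y)) F' x ∧
      ∀ h, F' h = 2 * dot (u x) (u' h) := by
  have U := fun i => hasFDerivAt_pi'.1 hu i
  refine ⟨_, ((((U 0).pow 2).add ((U 1).pow 2)).add ((U 2).pow 2)), ?_⟩
  intro h
  simp [dot]
  ring

/-- partial derivative -/
noncomputable def pd (n : (Fin 3 → ℝ) → Fin 3 → ℝ) (i : Fin 3) (y : Fin 3 → ℝ) : Fin 3 → ℝ :=
  fderiv ℝ n y (Pi.single i 1)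

/-- the closed two-form -/
noncomputable def om (n : (Fin 3 → ℝ) → Fin 3 → ℝ) (i j : Fin 3) (y : Fin 3 → ℝ) : ℝ :=
  D (n y) (pd n i y) (pd n j y)

lemma hasFDerivAt_pd {n : (Fin 3 → ℝ) → Fin 3 → ℝ} (hn : ContDiff ℝ 2 n) (i : Fin 3)
    (x : Fin 3 → ℝ) : ∃ L : (Fin 3 → ℝ) →L[ℝ] (Fin 3 → ℝ), HasFDerivAt (pd n i) L x ∧
      ∀ h, L h = fderiv ℝ (fderiv ℝ n) x h (Pi.single i 1) := by
  have h1 : DifferentiableAt ℝ (fderiv ℝ n) x :=
    ((hn.fderiv_right (m := 1) (by norm_num)).differentiable (by norm_num)) x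
  have h2 := h1.hasFDerivAt.clm_apply (hasFDerivAt_const (Pi.single i (1:ℝ) : Fin 3 → ℝ) x)
  refine ⟨_, h2, ?_⟩
  intro h
  simp

lemma om_hasFDerivAt {n : (Fin 3 → ℝ) → Fin 3 → ℝ} (hn : ContDiff ℝ 2 n) (i j : Fin 3)
    (x : Fin 3 → ℝ) : ∃ L : (Fin 3 → ℝ) →L[ℝ] ℝ, HasFDerivAt (om n i j) L x ∧
      ∀ k, L (Pi.single k 1) = D (pd n k x) (pd n i x) (pd n j x)
        + D (n x) (fderiv ℝ (fderiv ℝ n) x (Pi.single k 1) (Pi.single i 1)) (pd n j x)
        + D (n x) (pd n i x) (fderiv ℝ (fderiv ℝ n) x (Pi.single k 1) (Pi.single j 1)) := by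
  have h0 : HasFDerivAt n (fderiv ℝ n x) x := ((hn.differentiable (by norm_num)) x).hasFDerivAt
  obtain ⟨Li, hLi, hLi'⟩ := hasFDerivAt_pd hn i x
  obtain ⟨Lj, hLj, hLj'⟩ := hasFDerivAt_pd hn j x
  obtain ⟨F', hF, hF'⟩ := hasFDerivAt_D h0 hLi hLj
  refine ⟨F', hF, fun k => ?_⟩
  rw [hF', hLi', hLj']
  rfl

lemma div_zero {n : (Fin 3 → ℝ) → Fin 3 → ℝ} (hn : ContDiff ℝ 2 n) (h1 : ∀ y, nsq (n y) = 1)
    (x : Fin 3 → ℝ) :
    fderiv ℝ (om n 1 2) x (Pi.single 0 1) + fderiv ℝ (om n 2 0) x (Pi.single 1 1)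
      + fderiv ℝ (om n 0 1) x (Pi.single 2 1) = 0 := by
  obtain ⟨L0, hL0, hL0'⟩ := om_hasFDerivAt hn 1 2 x
  obtain ⟨L1, hL1, hL1'⟩ := om_hasFDerivAt hn 2 0 x
  obtain ⟨L2, hL2, hL2'⟩ := om_hasFDerivAt hn 0 1 x
  rw [hL0.fderiv, hL1.fderiv, hL2.fderiv, hL0', hL1', hL2']
  have hsym : IsSymmSndFDerivAt ℝ n x := by
    apply (hn.contDiffAt (x := x)).isSymmSndFDerivAt
    simp
  have s01 := hsym (Pi.single 0 1) (Pi.single 1 1)
  have s02 := hsym (Pi.single 0 1) (Pi.single 2 1)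
  have s12 := hsym (Pi.single 1 1) (Pi.single 2 1)
  rw [s01, s02, s12]
  have horth : ∀ i, dot (n x) (pd n i x) = 0 := by
    intro i
    have h0 : HasFDerivAt n (fderiv ℝ n x) x := ((hn.differentiable (by norm_num)) x).hasFDerivAt
    obtain ⟨F', hF, hF'⟩ := hasFDerivAt_nsq h0
    have hc : HasFDerivAt (fun y => nsq (n y)) (0 : (Fin 3 → ℝ) →L[ℝ] ℝ) x := by
      have : (fun y => nsq (n y)) = fun _ => (1:ℝ) := funext h1
      rw [this]
      exact hasFDerivAt_const _ _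
    have := hF.unique hc
    have h2 := hF' (Pi.single i 1)
    rw [this] at h2
    simp at h2
    exact h2
  have hD := D_eq_zero_of_orth (h1 x) (horth 0) (horth 1) (horth 2)
  simp only [D] at hD ⊢
  linear_combination 3 * hD

lemma om_continuous {n : (Fin 3 → ℝ) → Fin 3 → ℝ} (hn : ContDiff ℝ 2 n) (i j : Fin 3) :
    Continuous (om n i j) := by
  rw [continuous_iff_continuousAt]
  intro x
  obtain ⟨L, hL, -⟩ := om_hasFDerivAt hn i j x
  exact hL.continuousAt

lemma homotopy_inv {n : (Fin 3 → ℝ) → Fin 3 → ℝ} (hn : ContDiff ℝ 2 n)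
    (h1 : ∀ y, nsq (n y) = 1)
    (hper : ∀ y, n (y + Pi.single 2 (2 * Real.pi)) = n y)
    (hpole : ∀ y : Fin 3 → ℝ, (y 1 = 0 ∨ y 1 = Real.pi) → ∀ s : ℝ, n (y + Pi.single 2 s) = n y) :
    ∫ x in Icc (![0, 0] : Fin 2 → ℝ) ![Real.pi, 2 * Real.pi],
        om n 1 2 (Fin.insertNth (0 : Fin 3) (1:ℝ) x)
      = ∫ x in Icc (![0, 0] : Fin 2 → ℝ) ![Real.pi, 2 * Real.pi],
        om n 1 2 (Fin.insertNth (0 : Fin 3) (0:ℝ) x) := by
  have hpi := Real.pi_pos
  set a : Fin 3 → ℝ := ![0, 0, 0] with ha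
  set b : Fin 3 → ℝ := ![1, Real.pi, 2 * Real.pi] with hb
  have hle : a ≤ b := by
    intro i; fin_cases i <;> simp [a, b] <;> positivity
  set f : Fin 3 → (Fin 3 → ℝ) → ℝ := ![om n 1 2, om n 2 0, om n 0 1] with hf
  have hfc : ∀ i, ContinuousOn (f i) (Icc a b) := by
    intro i
    apply Continuous.continuousOn
    fin_cases i <;> simp [f] <;> exact om_continuous hn _ _
  have hfd : ∀ x ∈ (Set.pi Set.univ fun i => Ioo (a i) (b i)) \ (∅ : Set (Fin 3 → ℝ)), ∀ i,
      HasFDerivAt (f i) (fderiv ℝ (f i) x) x := by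
    intro x _ i
    have : DifferentiableAt ℝ (f i) x := by
      fin_cases i
      · obtain ⟨L, hL, -⟩ := om_hasFDerivAt hn 1 2 x
        exact hL.differentiableAt
      · obtain ⟨L, hL, -⟩ := om_hasFDerivAt hn 2 0 x
        exact hL.differentiableAt
      · obtain ⟨L, hL, -⟩ := om_hasFDerivAt hn 0 1 x
        exact hL.differentiableAt
    exact this.hasFDerivAt
  have hsum : (fun x => ∑ i, fderiv ℝ (f i) x (Pi.single i 1)) = fun _ => (0:ℝ) := by
    funext x
    rw [Fin.sum_univ_three]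
    exact div_zero hn h1 x
  have hint : IntegrableOn (fun x => ∑ i, fderiv ℝ (f i) x (Pi.single i 1)) (Icc a b) := by
    rw [hsum]; exact integrableOn_zero
  have key := integral_divergence_of_hasFDerivAt_off_countable' a b hle f
    (fun i x => fderiv ℝ (f i) x) ∅ Set.countable_empty hfc hfd hint
  rw [hsum] at key
  simp only [integral_zero] at key
  rw [Fin.sum_univ_three] at key
  -- face 1
  have pd2_pole : ∀ y : Fin 3 → ℝ, (y 1 = 0 ∨ y 1 = Real.pi) → pd n 2 y = 0 := by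
    intro y hy
    have h0 : HasFDerivAt n (fderiv ℝ n y) y := ((hn.differentiable (by norm_num)) y).hasFDerivAt
    have hl : HasDerivAt (fun s : ℝ => y + Pi.single 2 s) (Pi.single 2 1 : Fin 3 → ℝ) 0 := by
      have : (fun s : ℝ => y + Pi.single (M := fun _ : Fin 3 => ℝ) 2 s)
          = fun s : ℝ => y + s • (Pi.single 2 1 : Fin 3 → ℝ) := by
        funext s
        rw [← Pi.single_smul]; simp
      rw [this]
      simpa using ((hasDerivAt_id (0:ℝ)).smul_const (Pi.single 2 1 : Fin 3 → ℝ)).const_add y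
    have h00 : HasFDerivAt n (fderiv ℝ n y) (y + Pi.single 2 (0:ℝ)) := by simpa using h0
    have h2 := h00.comp_hasDerivAt (0:ℝ) hl
    have h3 : HasDerivAt (n ∘ fun s : ℝ => y + Pi.single 2 s) 0 (0:ℝ) := by
      have : (n ∘ fun s : ℝ => y + Pi.single 2 s) = fun _ => n y := by
        funext s; exact hpole y hy s
      rw [this]; exact hasDerivAt_const _ _
    exact h2.unique h3
  have om_pole : ∀ y : Fin 3 → ℝ, (y 1 = 0 ∨ y 1 = Real.pi) → om n 2 0 y = 0 := by
    intro y hy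
    unfold om
    rw [pd2_pole y hy]
    simp [D]
  have pd_per : ∀ (i : Fin 3) (y : Fin 3 → ℝ), pd n i (y + Pi.single 2 (2 * Real.pi)) = pd n i y := by
    intro i y
    unfold pd
    have : (fun y => n (y + Pi.single 2 (2 * Real.pi))) = n := funext hper
    have h2 := fderiv_comp_add_right (𝕜 := ℝ) (f := n) (x := y) (Pi.single 2 (2 * Real.pi))
    rw [this] at h2
    rw [← h2]
  have om_per : ∀ (i j : Fin 3) (y : Fin 3 → ℝ),
      om n i j (y + Pi.single 2 (2 * Real.pi)) = om n i j y := by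
    intro i j y
    unfold om
    rw [pd_per, pd_per, hper]
  have e1 : ∀ (c : ℝ) (hc : c = 0 ∨ c = Real.pi) (x : Fin 2 → ℝ),
      f 1 (Fin.insertNth (1 : Fin 3) c x) = 0 := by
    intro c hc x
    show om n 2 0 _ = 0
    apply om_pole
    simpa using hc
  have e2 : ∀ (x : Fin 2 → ℝ),
      f 2 (Fin.insertNth (2 : Fin 3) (2 * Real.pi) x) = f 2 (Fin.insertNth (2 : Fin 3) (0:ℝ) x) := by
    intro x
    show om n 0 1 _ = om n 0 1 _
    rw [← om_per 0 1 (Fin.insertNth (2 : Fin 3) (0:ℝ) x)]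
    congr 1
    funext i
    fin_cases i
    · simp
      rfl
    · simp
      rfl
    · simp
  have hb1 : b 1 = Real.pi := rfl
  have ha1 : a 1 = 0 := rfl
  have hb2 : b 2 = 2 * Real.pi := rfl
  have ha2 : a 2 = 0 := rfl
  have hb0 : b 0 = 1 := rfl
  have ha0 : a 0 = 0 := rfl
  rw [hb1, ha1, hb2, ha2, hb0, ha0] at key
  simp only [e1 Real.pi (Or.inr rfl), e1 0 (Or.inl rfl), e2, sub_self, add_zero, integral_zero] at key
  have hfa : (a ∘ (Fin.succAbove (0 : Fin 3))) = ![0, 0] := by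
    funext i; fin_cases i <;> rfl
  have hfb : (b ∘ (Fin.succAbove (0 : Fin 3))) = ![Real.pi, 2 * Real.pi] := by
    funext i; fin_cases i <;> rfl
  rw [hfa, hfb] at key
  have := sub_eq_zero.1 key.symm
  exact this

/-- spherical coordinates -/
noncomputable def sph (θ φ : ℝ) : Fin 3 → ℝ :=
  ![Real.sin θ * Real.cos φ, Real.sin θ * Real.sin φ, Real.cos θ]

lemma nsq_sph (θ φ : ℝ) : nsq (sph θ φ) = 1 := by
  simp only [nsq, sph, Matrix.cons_val_zero, Matrix.cons_val_one, Matrix.cons_val_two]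
  simp
  nlinarith [Real.sin_sq_add_cos_sq θ, Real.sin_sq_add_cos_sq φ]

/-- normalisation -/
noncomputable def nz (v : Fin 3 → ℝ) : Fin 3 → ℝ := (Real.sqrt (nsq v))⁻¹ • v

lemma nsq_pos {v : Fin 3 → ℝ} (hv : v ≠ 0) : 0 < nsq v := by
  by_contra h
  apply hv
  unfold nsq at h
  have h0 : v 0 = 0 := by nlinarith [sq_nonneg (v 0), sq_nonneg (v 1), sq_nonneg (v 2)]
  have h1 : v 1 = 0 := by nlinarith [sq_nonneg (v 0), sq_nonneg (v 1), sq_nonneg (v 2)]
  have h2 : v 2 = 0 := by nlinarith [sq_nonneg (v 0), sq_nonneg (v 1), sq_nonneg (v 2)]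
  funext i; fin_cases i <;> assumption

lemma nsq_nz {v : Fin 3 → ℝ} (hv : v ≠ 0) : nsq (nz v) = 1 := by
  have h := nsq_pos hv
  have hs : Real.sqrt (nsq v) ^ 2 = nsq v := Real.sq_sqrt h.le
  have hs0 : Real.sqrt (nsq v) ≠ 0 := by positivity
  have : nsq (nz v) = (Real.sqrt (nsq v))⁻¹ ^ 2 * nsq v := by
    simp only [nsq, nz, Pi.smul_apply, smul_eq_mul]; ring
  rw [this]
  nth_rewrite 2 [← hs]
  field_simp

lemma nz_neg (v : Fin 3 → ℝ) : nz (-v) = - nz v := by
  have : nsq (-v) = nsq v := by simp [nsq]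
  simp [nz, this]

lemma contDiff_nsq {E : Type*} [NormedAddCommGroup E] [NormedSpace ℝ E]
    {u : E → Fin 3 → ℝ} (hu : ContDiff ℝ 2 u) : ContDiff ℝ 2 (fun y => nsq (u y)) := by
  have U := contDiff_pi.1 hu
  exact (((U 0).pow 2).add ((U 1).pow 2)).add ((U 2).pow 2)

lemma contDiff_nz {E : Type*} [NormedAddCommGroup E] [NormedSpace ℝ E]
    {u : E → Fin 3 → ℝ} (hu : ContDiff ℝ 2 u) (h0 : ∀ y, u y ≠ 0) :
    ContDiff ℝ 2 (fun y => nz (u y)) := by
  have h1 := contDiff_nsq hu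
  have h2 : ContDiff ℝ 2 (fun y => Real.sqrt (nsq (u y))) :=
    h1.sqrt (fun y => (nsq_pos (h0 y)).ne')
  exact (h2.inv (fun y => (Real.sqrt_pos.2 (nsq_pos (h0 y))).ne')).smul hu

/-- the pulled back solid angle form of a map, in spherical coordinates -/
noncomputable def w (m : (Fin 3 → ℝ) → Fin 3 → ℝ) (θ φ : ℝ) : ℝ :=
  D (nz (m (sph θ φ))) (deriv (fun s => nz (m (sph s φ))) θ) (deriv (fun s => nz (m (sph θ s))) φ)

noncomputable def W (m : (Fin 3 → ℝ) → Fin 3 → ℝ) : ℝ :=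
  ∫ x in Icc (![0, 0] : Fin 2 → ℝ) ![Real.pi, 2 * Real.pi], w m (x 0) (x 1)

lemma W_congr {m m' : (Fin 3 → ℝ) → Fin 3 → ℝ} (h : ∀ θ φ, m (sph θ φ) = m' (sph θ φ)) :
    W m = W m' := by
  unfold W w
  simp only [h]

lemma W_neg (m : (Fin 3 → ℝ) → Fin 3 → ℝ) : W (fun p => - m p) = - W m := by
  unfold W
  rw [← integral_neg]
  congr 1
  funext x
  unfold w
  simp only [nz_neg]
  have h1 : deriv (fun s => - nz (m (sph s (x 1)))) (x 0)
      = - deriv (fun s => nz (m (sph s (x 1)))) (x 0) := deriv.fun_neg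
  have h2 : deriv (fun s => - nz (m (sph (x 0) s))) (x 1)
      = - deriv (fun s => nz (m (sph (x 0) s))) (x 1) := deriv.fun_neg
  rw [h1, h2]
  simp [D]
  ring

lemma sph_per (θ φ : ℝ) : sph θ (φ + 2 * Real.pi) = sph θ φ := by
  simp [sph]

lemma sph_pole {θ : ℝ} (h : θ = 0 ∨ θ = Real.pi) (φ ψ : ℝ) : sph θ φ = sph θ ψ := by
  rcases h with rfl | rfl <;> simp [sph]

lemma W_homotopy {G : ℝ → (Fin 3 → ℝ) → Fin 3 → ℝ}
    (hsm : ContDiff ℝ 2 (fun y : Fin 3 → ℝ => G (y 0) (sph (y 1) (y 2))))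
    (hnz : ∀ t θ φ, G t (sph θ φ) ≠ 0) : W (G 1) = W (G 0) := by
  set n : (Fin 3 → ℝ) → Fin 3 → ℝ := fun y => nz (G (y 0) (sph (y 1) (y 2))) with hn
  have hn2 : ContDiff ℝ 2 n := contDiff_nz hsm (fun y => hnz _ _ _)
  have hn1 : ∀ y, nsq (n y) = 1 := fun y => nsq_nz (hnz _ _ _)
  have hper : ∀ y, n (y + Pi.single 2 (2 * Real.pi)) = n y := by
    intro y
    simp [n, sph_per]
  have hpole : ∀ y : Fin 3 → ℝ, (y 1 = 0 ∨ y 1 = Real.pi) → ∀ s : ℝ,
      n (y + Pi.single 2 s) = n y := by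
    intro y hy s
    simp only [n, Pi.add_apply]
    simp
    rw [sph_pole hy (y 2 + s) (y 2)]
  have key := homotopy_inv hn2 hn1 hper hpole
  have hcurve : ∀ (i : Fin 3) (y : Fin 3 → ℝ),
      pd n i y = deriv (fun s => n (y + Pi.single i (s - y i))) (y i) := by
    intro i y
    have h0 : HasFDerivAt n (fderiv ℝ n y) y := ((hn2.differentiable (by norm_num)) y).hasFDerivAt
    have hl : HasDerivAt (fun s : ℝ => y + Pi.single i (s - y i)) (Pi.single i 1 : Fin 3 → ℝ)
        (y i) := by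
      have : (fun s : ℝ => y + Pi.single (M := fun _ : Fin 3 => ℝ) i (s - y i))
          = fun s : ℝ => y + (s - y i) • (Pi.single i 1 : Fin 3 → ℝ) := by
        funext s
        rw [← Pi.single_smul]; simp
      rw [this]
      simpa using (((hasDerivAt_id (y i)).sub_const (y i)).smul_const
        (Pi.single i 1 : Fin 3 → ℝ)).const_add y
    have h00 : HasFDerivAt n (fderiv ℝ n y) (y + Pi.single i (y i - y i)) := by simpa using h0
    have h2 := h00.comp_hasDerivAt (y i) hl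
    exact h2.deriv.symm
  have hw : ∀ (c : ℝ) (x : Fin 2 → ℝ),
      om n 1 2 (Fin.insertNth (0 : Fin 3) c x) = w (G c) (x 0) (x 1) := by
    intro c x
    have y0 : (Fin.insertNth (0 : Fin 3) c x : Fin 3 → ℝ) 0 = c := by simp
    have y1 : (Fin.insertNth (0 : Fin 3) c x : Fin 3 → ℝ) 1 = x 0 := by
      simp
    have y2 : (Fin.insertNth (0 : Fin 3) c x : Fin 3 → ℝ) 2 = x 1 := by
      simp; rfl
    set Y : Fin 3 → ℝ := Fin.insertNth (0 : Fin 3) c x with hY
    have A1 : pd n 1 Y = deriv (fun s => nz (G c (sph s (x 1)))) (x 0) := by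
      rw [hcurve 1, y1]
      congr 1
      funext s
      have z0 : (Y + Pi.single 1 (s - x 0) : Fin 3 → ℝ) 0 = c := by rw [Pi.add_apply, y0]; simp
      have z1 : (Y + Pi.single 1 (s - x 0) : Fin 3 → ℝ) 1 = s := by rw [Pi.add_apply, y1]; simp
      have z2 : (Y + Pi.single 1 (s - x 0) : Fin 3 → ℝ) 2 = x 1 := by rw [Pi.add_apply, y2]; simp
      simp only [n, z0, z1, z2]
    have A2 : pd n 2 Y = deriv (fun s => nz (G c (sph (x 0) s))) (x 1) := by
      rw [hcurve 2, y2]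
      congr 1
      funext s
      have z0 : (Y + Pi.single 2 (s - x 1) : Fin 3 → ℝ) 0 = c := by rw [Pi.add_apply, y0]; simp
      have z1 : (Y + Pi.single 2 (s - x 1) : Fin 3 → ℝ) 1 = x 0 := by rw [Pi.add_apply, y1]; simp
      have z2 : (Y + Pi.single 2 (s - x 1) : Fin 3 → ℝ) 2 = s := by rw [Pi.add_apply, y2]; simp
      simp only [n, z0, z1, z2]
    unfold om w
    rw [A1, A2]
    simp only [n, y0, y1, y2]
  simp only [hw] at key
  exact key

/-- the linear map with matrix `N` -/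
noncomputable def lin (N : Fin 3 → Fin 3 → ℝ) (p : Fin 3 → ℝ) : Fin 3 → ℝ :=
  fun j => N j 0 * p 0 + N j 1 * p 1 + N j 2 * p 2

lemma D_lin (N : Fin 3 → Fin 3 → ℝ) (a b c : Fin 3 → ℝ) :
    D (lin N a) (lin N b) (lin N c) = D (N 0) (N 1) (N 2) * D a b c := by
  simp only [D, lin]; ring

lemma D_comb (a b c : Fin 3 → ℝ) (r r1 r2 : ℝ) :
    D (r • a) (r • b + r1 • a) (r • c + r2 • a) = r ^ 3 * D a b c := by
  simp only [D, Pi.smul_apply, Pi.add_apply, smul_eq_mul]; ring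

lemma hasDerivAt_lin {N : Fin 3 → Fin 3 → ℝ} {q : ℝ → Fin 3 → ℝ} {q' : Fin 3 → ℝ} {s : ℝ}
    (h : HasDerivAt q q' s) : HasDerivAt (fun s => lin N (q s)) (lin N q') s := by
  have H := hasDerivAt_pi.1 h
  rw [hasDerivAt_pi]
  intro j
  exact (((H 0).const_mul (N j 0)).add ((H 1).const_mul (N j 1))).add ((H 2).const_mul (N j 2))

lemma hasDerivAt_nz {q : ℝ → Fin 3 → ℝ} {q' : Fin 3 → ℝ} {s : ℝ}
    (h : HasDerivAt q q' s) (h0 : q s ≠ 0) :
    ∃ r1 : ℝ, HasDerivAt (fun s => nz (q s)) ((Real.sqrt (nsq (q s)))⁻¹ • q' + r1 • q s) s := by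
  have H := hasDerivAt_pi.1 h
  have h1 : HasDerivAt (fun s => nsq (q s)) _ s :=
    (((H 0).pow 2).add ((H 1).pow 2)).add ((H 2).pow 2)
  have h2 := h1.sqrt (nsq_pos h0).ne'
  have h3 := h2.inv (Real.sqrt_pos.2 (nsq_pos h0)).ne'
  exact ⟨_, h3.smul h⟩

lemma hasDerivAt_sph1 (θ φ : ℝ) : HasDerivAt (fun s => sph s φ)
    ![Real.cos θ * Real.cos φ, Real.cos θ * Real.sin φ, - Real.sin θ] θ := by
  rw [hasDerivAt_pi]
  intro i
  fin_cases i
  · exact (Real.hasDerivAt_sin θ).mul_const _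
  · exact (Real.hasDerivAt_sin θ).mul_const _
  · exact Real.hasDerivAt_cos θ

lemma hasDerivAt_sph2 (θ φ : ℝ) : HasDerivAt (fun s => sph θ s)
    ![Real.sin θ * (- Real.sin φ), Real.sin θ * Real.cos φ, 0] φ := by
  rw [hasDerivAt_pi]
  intro i
  fin_cases i
  · exact (Real.hasDerivAt_cos φ).const_mul _
  · exact (Real.hasDerivAt_sin φ).const_mul _
  · exact hasDerivAt_const _ _

lemma D_sph (θ φ : ℝ) : D (sph θ φ)
    ![Real.cos θ * Real.cos φ, Real.cos θ * Real.sin φ, - Real.sin θ]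
    ![Real.sin θ * (- Real.sin φ), Real.sin θ * Real.cos φ, 0] = Real.sin θ := by
  simp [D, sph]
  have h1 := Real.sin_sq_add_cos_sq θ
  have h2 := Real.sin_sq_add_cos_sq φ
  have h3 : Real.cos θ ^ 2 = 1 - Real.sin θ ^ 2 := by linarith
  have h4 : Real.cos φ ^ 2 = 1 - Real.sin φ ^ 2 := by linarith
  ring_nf
  simp only [h3, h4]
  ring

lemma w_lin {N : Fin 3 → Fin 3 → ℝ} (hN : ∀ p, p ≠ 0 → lin N p ≠ 0) (θ φ : ℝ) :
    w (lin N) θ φ = D (N 0) (N 1) (N 2) *
      ((Real.sqrt (nsq (lin N (sph θ φ))))⁻¹ ^ 3 * Real.sin θ) := by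
  have hp : sph θ φ ≠ 0 := by
    intro h
    have := nsq_sph θ φ
    rw [h] at this
    simp [nsq] at this
  have h0 := hN _ hp
  obtain ⟨r1, h1⟩ := hasDerivAt_nz (hasDerivAt_lin (N := N) (hasDerivAt_sph1 θ φ)) h0
  obtain ⟨r2, h2⟩ := hasDerivAt_nz (hasDerivAt_lin (N := N) (hasDerivAt_sph2 θ φ)) h0
  unfold w
  rw [h1.deriv, h2.deriv]
  show D ((Real.sqrt (nsq (lin N (sph θ φ))))⁻¹ • _) _ _ = _
  rw [D_comb, D_lin, D_sph]
  ring

lemma W_lin_ne_zero {N : Fin 3 → Fin 3 → ℝ} (hN : ∀ p, p ≠ 0 → lin N p ≠ 0)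
    (hdet : D (N 0) (N 1) (N 2) ≠ 0) : W (lin N) ≠ 0 := by
  unfold W
  simp only [w_lin hN]
  rw [integral_const_mul]
  apply mul_ne_zero hdet
  apply ne_of_gt
  have hpi := Real.pi_pos
  set F : (Fin 2 → ℝ) → ℝ := fun x =>
    (Real.sqrt (nsq (lin N (sph (x 0) (x 1)))))⁻¹ ^ 3 * Real.sin (x 0) with hF
  have hne : ∀ θ φ, lin N (sph θ φ) ≠ 0 := by
    intro θ φ
    apply hN
    intro h
    have := nsq_sph θ φ
    rw [h] at this
    simp [nsq] at this
  have hcont : Continuous F := by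
    have hs : ∀ x : Fin 2 → ℝ, Real.sqrt (nsq (lin N (sph (x 0) (x 1)))) ≠ 0 :=
      fun x => (Real.sqrt_pos.2 (nsq_pos (hne _ _))).ne'
    have h1 : Continuous fun x : Fin 2 → ℝ => nsq (lin N (sph (x 0) (x 1))) := by
      simp only [nsq, lin, sph]
      simp
      fun_prop
    exact ((h1.sqrt.inv₀ hs).pow 3).mul (Real.continuous_sin.comp (continuous_apply 0))
  have hnn : ∀ x ∈ Icc (![0, 0] : Fin 2 → ℝ) ![Real.pi, 2 * Real.pi], 0 ≤ F x := by
    intro x hx
    apply mul_nonneg (by positivity)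
    apply Real.sin_nonneg_of_nonneg_of_le_pi
    · exact hx.1 0
    · exact hx.2 0
  have hint : IntegrableOn F (Icc (![0, 0] : Fin 2 → ℝ) ![Real.pi, 2 * Real.pi]) :=
    hcont.continuousOn.integrableOn_compact isCompact_Icc
  rw [setIntegral_pos_iff_support_of_nonneg_ae _ hint]
  · set U : Set (Fin 2 → ℝ) := Set.pi Set.univ (fun i => Ioo ((![0, 0] : Fin 2 → ℝ) i)
      ((![Real.pi, 2 * Real.pi] : Fin 2 → ℝ) i)) with hU
    have hUo : IsOpen U := isOpen_set_pi Set.finite_univ (fun i _ => isOpen_Ioo)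
    have hUn : U.Nonempty := by
      refine ⟨![Real.pi / 2, Real.pi], ?_⟩
      intro i _
      fin_cases i
      · show Real.pi / 2 ∈ Ioo 0 Real.pi
        constructor <;> linarith
      · show Real.pi ∈ Ioo 0 (2 * Real.pi)
        constructor <;> linarith
    have hUm : 0 < volume U := hUo.measure_pos volume hUn
    apply lt_of_lt_of_le hUm
    apply measure_mono
    intro x hx
    have h0 := hx 0 (Set.mem_univ _)
    have h1 := hx 1 (Set.mem_univ _)
    simp at h0 h1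
    constructor
    · rw [Function.mem_support]
      apply ne_of_gt
      apply mul_pos
      · have := Real.sqrt_pos.2 (nsq_pos (hne (x 0) (x 1)))
        positivity
      · exact Real.sin_pos_of_pos_of_lt_pi h0.1 h0.2
    · constructor
      · intro i; fin_cases i
        · exact h0.1.le
        · exact h1.1.le
      · intro i; fin_cases i
        · exact h0.2.le
        · exact h1.2.le
  · filter_upwards [ae_restrict_mem measurableSet_Icc] with x hx
    exact hnn x hx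

/-- **Topological core.** There are no maps `G, P` of `ℝ³` with `G(p) = N(p)p`, `N(tp)p ≠ 0` on the
sphere for all `t` and `G, P` linearly independent on the sphere. -/
theorem core (N : Fin 3 → Fin 3 → (Fin 3 → ℝ) → ℝ) (hN : ∀ i j, ContDiff ℝ 2 (N i j))
    (P : (Fin 3 → ℝ) → Fin 3 → ℝ) (hP : ContDiff ℝ 2 P)
    (hnz : ∀ (t : ℝ) (p : Fin 3 → ℝ), nsq p = 1 → lin (fun i j => N i j (t • p)) p ≠ 0)
    (hind : ∀ (p : Fin 3 → ℝ), nsq p = 1 → ∀ a b : ℝ, a ^ 2 + b ^ 2 = 1 →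
      a • lin (fun i j => N i j p) p + b • P p ≠ 0)
    (hdet : D (fun j => N 0 j 0) (fun j => N 1 j 0) (fun j => N 2 j 0) ≠ 0) : False := by
  have hsph : ContDiff ℝ 2 (fun y : Fin 3 → ℝ => sph (y 1) (y 2)) := by
    rw [contDiff_pi]
    intro i
    have c1 : ContDiff ℝ 2 (fun y : Fin 3 → ℝ => y 1) := contDiff_apply ℝ ℝ 1
    have c2 : ContDiff ℝ 2 (fun y : Fin 3 → ℝ => y 2) := contDiff_apply ℝ ℝ 2
    fin_cases i
    · exact (c1.sin).mul (c2.cos)
    · exact (c1.sin).mul (c2.sin)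
    · exact c1.cos
  have c0 : ContDiff ℝ 2 (fun y : Fin 3 → ℝ => y 0) := contDiff_apply ℝ ℝ 0
  have hcomp := contDiff_pi.1 hsph
  -- first homotopy
  have h1 : W (fun p => lin (fun i j => N i j ((1:ℝ) • p)) p)
      = W (fun p => lin (fun i j => N i j ((0:ℝ) • p)) p) := by
    apply W_homotopy (G := fun t p => lin (fun i j => N i j (t • p)) p)
    · rw [contDiff_pi]
      intro i
      have hNi : ∀ j, ContDiff ℝ 2 (fun y : Fin 3 → ℝ => N i j (y 0 • sph (y 1) (y 2))) :=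
        fun j => (hN i j).comp (c0.smul hsph)
      exact (((hNi 0).mul (hcomp 0)).add ((hNi 1).mul (hcomp 1))).add ((hNi 2).mul (hcomp 2))
    · intro t θ φ
      exact hnz t _ (nsq_sph θ φ)
  -- second homotopy
  have h2 : W (fun p => Real.cos (Real.pi * 1) • lin (fun i j => N i j p) p
        + Real.sin (Real.pi * 1) • P p)
      = W (fun p => Real.cos (Real.pi * 0) • lin (fun i j => N i j p) p
        + Real.sin (Real.pi * 0) • P p) := by
    apply W_homotopy (G := fun t p => Real.cos (Real.pi * t) • lin (fun i j => N i j p) p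
        + Real.sin (Real.pi * t) • P p)
    · have hl : ContDiff ℝ 2 (fun y : Fin 3 → ℝ =>
          lin (fun i j => N i j (sph (y 1) (y 2))) (sph (y 1) (y 2))) := by
        rw [contDiff_pi]
        intro i
        have hNi : ∀ j, ContDiff ℝ 2 (fun y : Fin 3 → ℝ => N i j (sph (y 1) (y 2))) :=
          fun j => (hN i j).comp hsph
        exact (((hNi 0).mul (hcomp 0)).add ((hNi 1).mul (hcomp 1))).add ((hNi 2).mul (hcomp 2))
      have hPs : ContDiff ℝ 2 (fun y : Fin 3 → ℝ => P (sph (y 1) (y 2))) := hP.comp hsph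
      have hc : ContDiff ℝ 2 (fun y : Fin 3 → ℝ => Real.cos (Real.pi * y 0)) :=
        (contDiff_const.mul c0).cos
      have hs : ContDiff ℝ 2 (fun y : Fin 3 → ℝ => Real.sin (Real.pi * y 0)) :=
        (contDiff_const.mul c0).sin
      exact (hc.smul hl).add (hs.smul hPs)
    · intro t θ φ
      exact hind _ (nsq_sph θ φ) _ _ (by rw [Real.cos_sq_add_sin_sq])
  set L : Fin 3 → Fin 3 → ℝ := fun i j => N i j 0 with hL
  set Gm : (Fin 3 → ℝ) → Fin 3 → ℝ := fun p => lin (fun i j => N i j p) p with hGm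
  have e1 : W (fun p => lin (fun i j => N i j ((1:ℝ) • p)) p) = W Gm := by simp [Gm]
  have e0 : W (fun p => lin (fun i j => N i j ((0:ℝ) • p)) p) = W (lin L) := by
    simp only [zero_smul]; rfl
  have e3 : W (fun p => Real.cos (Real.pi * 1) • lin (fun i j => N i j p) p
        + Real.sin (Real.pi * 1) • P p) = - W Gm := by
    rw [← W_neg]; simp [Gm]
  have e4 : W (fun p => Real.cos (Real.pi * 0) • lin (fun i j => N i j p) p
        + Real.sin (Real.pi * 0) • P p) = W Gm := by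
    simp [Gm]
  rw [e1, e0] at h1
  rw [e3, e4] at h2
  have h3 : W (lin L) = 0 := by linarith
  refine W_lin_ne_zero ?_ hdet h3
  -- injectivity of L
  intro p hp hLp
  have hn := nsq_pos hp
  have hs : Real.sqrt (nsq p) ^ 2 = nsq p := Real.sq_sqrt hn.le
  have := hnz 0 (nz p) (nsq_nz hp)
  apply this
  simp only [zero_smul]
  have : lin L (nz p) = (Real.sqrt (nsq p))⁻¹ • lin L p := by
    funext i
    simp only [lin, nz, Pi.smul_apply, smul_eq_mul]; ring
  show lin L (nz p) = 0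
  rw [this, hLp, smul_zero]

open MvPolynomial

lemma contDiff_eval (q : MvPolynomial (Fin 5) ℝ) : ContDiff ℝ 2 (fun x : Fin 5 → ℝ => eval x q) := by
  induction q using MvPolynomial.induction_on with
  | C a => simpa using contDiff_const
  | add p q hp hq => simpa using hp.add hq
  | mul_X p i hp => simpa using hp.mul (contDiff_apply ℝ ℝ i)

/-- evaluation at `(p, u, v)` -/
noncomputable def ev (q : MvPolynomial (Fin 5) ℝ) (p : Fin 3 → ℝ) (u v : ℝ) : ℝ :=
  eval ![p 0, p 1, p 2, u, v] q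

lemma ev_contDiff (q : MvPolynomial (Fin 5) ℝ) : ContDiff ℝ 2 (fun p => ev q p 0 0) := by
  apply (contDiff_eval q).comp (f := fun p : Fin 3 → ℝ => ![p 0, p 1, p 2, 0, 0])
  rw [contDiff_pi]
  intro i
  fin_cases i
  · exact contDiff_apply ℝ ℝ 0
  · exact contDiff_apply ℝ ℝ 1
  · exact contDiff_apply ℝ ℝ 2
  · exact contDiff_const
  · exact contDiff_const

lemma ev_cont_u (q : MvPolynomial (Fin 5) ℝ) (p : Fin 3 → ℝ) : Continuous (fun u => ev q p u 0) := by
  apply (contDiff_eval q).continuous.comp (f := fun u : ℝ => ![p 0, p 1, p 2, u, 0])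
  rw [continuous_pi_iff]
  intro i
  fin_cases i
  · exact continuous_const
  · exact continuous_const
  · exact continuous_const
  · exact continuous_id
  · exact continuous_const

lemma ev_cont_s (q : MvPolynomial (Fin 5) ℝ) (p : Fin 3 → ℝ) :
    Continuous (fun s : ℝ => ev q (s • p) 0 0) :=
  (ev_contDiff q).continuous.comp (continuous_id.smul continuous_const)

lemma cont_ext {f : ℝ → ℝ} (hf : Continuous f) (S : Set ℝ) (hS : S.Finite)
    (h : ∀ s ∉ S, f s = 0) (s : ℝ) : f s = 0 := by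
  have hd : Dense (Sᶜ) := hS.countable.dense_compl ℝ
  have := Continuous.ext_on hd hf (continuous_const (y := (0:ℝ))) (fun x hx => h x hx)
  exact congrFun this s

/-- the sphere equation -/
noncomputable def ph : MvPolynomial (Fin 5) ℝ := X 0 ^ 2 + X 1 ^ 2 + X 2 ^ 2 - 1

/-- ideal of the sphere -/
noncomputable def I1 : Ideal (MvPolynomial (Fin 5) ℝ) := Ideal.span {ph, X 3, X 4}

/-- ideal of the plane -/
noncomputable def I2 : Ideal (MvPolynomial (Fin 5) ℝ) := Ideal.span {X 0, X 1, X 2}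

/-- embedding of the first three variables -/
def em : Fin 3 → Fin 5 := ![0, 1, 2]

lemma ev_X (i : Fin 3) (p : Fin 3 → ℝ) (u v : ℝ) : ev (X (em i)) p u v = p i := by
  fin_cases i <;> simp [ev, em]

lemma ev_X3 (p : Fin 3 → ℝ) (u v : ℝ) : ev (X 3) p u v = u := by simp [ev]

lemma ev_X4 (p : Fin 3 → ℝ) (u v : ℝ) : ev (X 4) p u v = v := by simp [ev]

lemma ev_ph (p : Fin 3 → ℝ) (u v : ℝ) : ev ph p u v = nsq p - 1 := by simp [ev, ph, nsq]

lemma ev_mul (f g : MvPolynomial (Fin 5) ℝ) (p : Fin 3 → ℝ) (u v : ℝ) :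
    ev (f * g) p u v = ev f p u v * ev g p u v := by simp [ev]

lemma ev_add (f g : MvPolynomial (Fin 5) ℝ) (p : Fin 3 → ℝ) (u v : ℝ) :
    ev (f + g) p u v = ev f p u v + ev g p u v := by simp [ev]

lemma nsq_smul (s : ℝ) (p : Fin 3 → ℝ) : nsq (s • p) = s ^ 2 * nsq p := by
  simp [nsq]; ring

lemma X_mem_I2 (i : Fin 3) : (X (em i) : MvPolynomial (Fin 5) ℝ) ∈ I2 := by
  apply Ideal.subset_span
  fin_cases i <;> simp [em]

theorem not_three (F : Fin 3 → MvPolynomial (Fin 5) ℝ)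
    (hF : Ideal.span (Set.range F) = I1 ⊓ I2) : False := by
  have hmem : ∀ j, F j ∈ I1 ⊓ I2 := fun j => hF ▸ Ideal.subset_span ⟨j, rfl⟩
  have hA : ∀ j, ∃ a b c : MvPolynomial (Fin 5) ℝ, a * ph + b * X 3 + c * X 4 = F j := by
    intro j
    have := (hmem j).1
    exact Submodule.mem_span_triple.1 this
  have hB : ∀ j, ∃ a b c : MvPolynomial (Fin 5) ℝ, a * X 0 + b * X 1 + c * X 2 = F j := by
    intro j
    have := (hmem j).2
    exact Submodule.mem_span_triple.1 this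
  choose a b c habc using hA
  choose α0 α1 α2 hα using hB
  have hH : ∀ i : Fin 3, ∃ h : Fin 3 → MvPolynomial (Fin 5) ℝ,
      h 0 * F 0 + h 1 * F 1 + h 2 * F 2 = ph * X (em i) := by
    intro i
    have : ph * X (em i) ∈ Ideal.span (Set.range F) := by
      rw [hF]
      refine ⟨Ideal.mul_mem_right _ _ (Ideal.subset_span (by simp)), ?_⟩
      exact Ideal.mul_mem_left _ _ (X_mem_I2 i)
    obtain ⟨h, hh⟩ := (Ideal.mem_span_range_iff_exists_fun).1 this
    refine ⟨h, ?_⟩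
    rw [← hh, Fin.sum_univ_three]
  have hK : ∀ i : Fin 3, ∃ h : Fin 3 → MvPolynomial (Fin 5) ℝ,
      h 0 * F 0 + h 1 * F 1 + h 2 * F 2 = X 3 * X (em i) := by
    intro i
    have : X 3 * X (em i) ∈ Ideal.span (Set.range F) := by
      rw [hF]
      refine ⟨Ideal.mul_mem_right _ _ (Ideal.subset_span (by simp)), ?_⟩
      exact Ideal.mul_mem_left _ _ (X_mem_I2 i)
    obtain ⟨h, hh⟩ := (Ideal.mem_span_range_iff_exists_fun).1 this
    refine ⟨h, ?_⟩
    rw [← hh, Fin.sum_univ_three]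
  choose h hh using hH
  choose k hk using hK
  -- evaluations of F
  have evF : ∀ j p u, ev (F j) p u 0 = ev (a j) p u 0 * (nsq p - 1) + ev (b j) p u 0 * u := by
    intro j p u
    rw [← habc j, ev_add, ev_add, ev_mul, ev_mul, ev_mul, ev_ph, ev_X3, ev_X4]
    ring
  have evF2 : ∀ j p, ev (F j) p 0 0 = ev (α0 j) p 0 0 * p 0 + ev (α1 j) p 0 0 * p 1
      + ev (α2 j) p 0 0 * p 2 := by
    intro j p
    have e0 := ev_X 0 p 0 0
    have e1 := ev_X 1 p 0 0
    have e2 := ev_X 2 p 0 0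
    simp only [em, Matrix.cons_val_zero, Matrix.cons_val_one, Matrix.cons_val_two] at e0 e1 e2
    rw [← hα j, ev_add, ev_add, ev_mul, ev_mul, ev_mul]
    rw [show (ev (X 0) p 0 0) = p 0 from e0, show (ev (X 1) p 0 0) = p 1 from e1,
      show (ev (X 2) p 0 0) = p 2 from by simpa using e2]
  have evh : ∀ i p u, ev (h i 0) p u 0 * ev (F 0) p u 0 + ev (h i 1) p u 0 * ev (F 1) p u 0
      + ev (h i 2) p u 0 * ev (F 2) p u 0 = (nsq p - 1) * p i := by
    intro i p u
    have := congrArg (fun q => ev q p u 0) (hh i)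
    simpa only [ev_add, ev_mul, ev_ph, ev_X] using this
  have evk : ∀ i p u, ev (k i 0) p u 0 * ev (F 0) p u 0 + ev (k i 1) p u 0 * ev (F 1) p u 0
      + ev (k i 2) p u 0 * ev (F 2) p u 0 = u * p i := by
    intro i p u
    have := congrArg (fun q => ev q p u 0) (hk i)
    simpa only [ev_add, ev_mul, ev_X3, ev_X] using this
  set G : Fin 3 → (Fin 3 → ℝ) → ℝ := fun j p => ev (a j) p 0 0 with hG
  set P : (Fin 3 → ℝ) → Fin 3 → ℝ := fun p j => ev (b j) p 0 0 with hP
  set αα : Fin 3 → Fin 3 → (Fin 3 → ℝ) → ℝ := fun j =>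
    ![fun p => ev (α0 j) p 0 0, fun p => ev (α1 j) p 0 0, fun p => ev (α2 j) p 0 0] with hαα
  set N : Fin 3 → Fin 3 → (Fin 3 → ℝ) → ℝ := fun j l p => p l * G j p - αα j l p with hN
  have hNG : ∀ p j, lin (fun i j => N i j p) p j = G j p := by
    intro p j
    have e1 := evF j p 0
    have e2 := evF2 j p
    simp only [lin, N, αα, G, nsq] at *
    simp
    linarith
  -- (F2)
  have F2 : ∀ p i, ev (h i 0) p 0 0 * G 0 p + ev (h i 1) p 0 0 * G 1 p
      + ev (h i 2) p 0 0 * G 2 p = p i := by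
    intro p i
    have base : ∀ q : Fin 3 → ℝ, nsq q ≠ 1 → ev (h i 0) q 0 0 * G 0 q + ev (h i 1) q 0 0 * G 1 q
      + ev (h i 2) q 0 0 * G 2 q = q i := by
      intro q hq
      have := evh i q 0
      rw [evF, evF, evF] at this
      have hq' : nsq q - 1 ≠ 0 := sub_ne_zero.2 hq
      apply mul_left_cancel₀ hq'
      simp only [G]
      linarith
    by_cases hp : nsq p = 1
    · have := cont_ext (f := fun s : ℝ => ev (h i 0) (s • p) 0 0 * ev (a 0) (s • p) 0 0
        + ev (h i 1) (s • p) 0 0 * ev (a 1) (s • p) 0 0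
        + ev (h i 2) (s • p) 0 0 * ev (a 2) (s • p) 0 0 - s * p i)
        ((((((ev_cont_s _ p).mul (ev_cont_s _ p)).add ((ev_cont_s _ p).mul (ev_cont_s _ p))).add
          ((ev_cont_s _ p).mul (ev_cont_s _ p)))).sub (continuous_id.mul continuous_const))
        {1, -1} (by simp) (by
          intro s hs
          have h1 : nsq (s • p) ≠ 1 := by
            rw [nsq_smul, hp, mul_one]
            intro h
            apply hs
            have : (s - 1) * (s + 1) = 0 := by linarith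
            rcases mul_eq_zero.1 this with h | h
            · left; linarith
            · right; simp; linarith
          have := base _ h1
          simp only [G, Pi.smul_apply, smul_eq_mul] at this
          linarith) 1
      simp only [one_smul, one_mul] at this
      simp only [G]; linarith
    · exact base p hp
  have exc : ∀ (p : Fin 3 → ℝ), nsq p = 1 → ∀ s : ℝ, s ∉ ({1, -1} : Set ℝ) →
      nsq (s • p) ≠ 1 := by
    intro p hp s hs
    rw [nsq_smul, hp, mul_one]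
    intro h
    apply hs
    have : (s - 1) * (s + 1) = 0 := by linarith
    rcases mul_eq_zero.1 this with h | h
    · left; linarith
    · right; simp; linarith
  -- (F3)
  have F3 : ∀ p, nsq p = 1 → ∀ i, ev (h i 0) p 0 0 * P p 0 + ev (h i 1) p 0 0 * P p 1
      + ev (h i 2) p 0 0 * P p 2 = 0 := by
    intro p hp i
    have := cont_ext (f := fun u : ℝ => ev (h i 0) p u 0 * ev (b 0) p u 0
        + ev (h i 1) p u 0 * ev (b 1) p u 0 + ev (h i 2) p u 0 * ev (b 2) p u 0)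
        (((ev_cont_u _ p).mul (ev_cont_u _ p)).add ((ev_cont_u _ p).mul (ev_cont_u _ p)) |>.add
          ((ev_cont_u _ p).mul (ev_cont_u _ p))) {0} (by simp) (by
          intro u hu
          have hu' : u ≠ 0 := hu
          have h2 := evh i p u
          rw [evF, evF, evF, hp] at h2
          apply mul_left_cancel₀ hu'
          linarith) 0
    exact this
  -- (F4a)
  have F4 : ∀ p, nsq p = 1 → ∀ i, ev (k i 0) p 0 0 * P p 0 + ev (k i 1) p 0 0 * P p 1
      + ev (k i 2) p 0 0 * P p 2 = p i := by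
    intro p hp i
    have := cont_ext (f := fun u : ℝ => ev (k i 0) p u 0 * ev (b 0) p u 0
        + ev (k i 1) p u 0 * ev (b 1) p u 0 + ev (k i 2) p u 0 * ev (b 2) p u 0 - p i)
        ((((ev_cont_u _ p).mul (ev_cont_u _ p)).add ((ev_cont_u _ p).mul (ev_cont_u _ p)) |>.add
          ((ev_cont_u _ p).mul (ev_cont_u _ p))).sub continuous_const) {0} (by simp) (by
          intro u hu
          have hu' : u ≠ 0 := hu
          have h2 := evk i p u
          rw [evF, evF, evF, hp] at h2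
          apply mul_left_cancel₀ hu'
          linarith) 0
    beta_reduce at this
    simp only [P]
    linarith
  -- (F4b)
  have F5 : ∀ p, nsq p = 1 → ∀ i, ev (k i 0) p 0 0 * G 0 p + ev (k i 1) p 0 0 * G 1 p
      + ev (k i 2) p 0 0 * G 2 p = 0 := by
    intro p hp i
    have := cont_ext (f := fun s : ℝ => ev (k i 0) (s • p) 0 0 * ev (a 0) (s • p) 0 0
        + ev (k i 1) (s • p) 0 0 * ev (a 1) (s • p) 0 0
        + ev (k i 2) (s • p) 0 0 * ev (a 2) (s • p) 0 0)
        (((ev_cont_s _ p).mul (ev_cont_s _ p)).add ((ev_cont_s _ p).mul (ev_cont_s _ p)) |>.add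
          ((ev_cont_s _ p).mul (ev_cont_s _ p))) {1, -1} (by simp) (by
          intro s hs
          have h1 := exc p hp s hs
          have h2 := evk i (s • p) 0
          rw [evF, evF, evF] at h2
          have hq' : nsq (s • p) - 1 ≠ 0 := sub_ne_zero.2 h1
          apply mul_left_cancel₀ hq'
          linarith) 1
    simp only [one_smul] at this
    exact this
  -- rewriting of (F2) along rays
  have H1 : ∀ (t : ℝ) (p : Fin 3 → ℝ) (i : Fin 3),
      ev (h i 0) (t • p) 0 0 * lin (fun i j => N i j (t • p)) p 0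
      + ev (h i 1) (t • p) 0 0 * lin (fun i j => N i j (t • p)) p 1
      + ev (h i 2) (t • p) 0 0 * lin (fun i j => N i j (t • p)) p 2 = p i := by
    intro t p i
    have hNc : ∀ j l, Continuous (fun s : ℝ => N j l (s • p)) := by
      intro j l
      have : Continuous (fun s : ℝ => αα j l (s • p)) := by
        fin_cases l
        · exact ev_cont_s _ p
        · exact ev_cont_s _ p
        · exact ev_cont_s _ p
      have h2 : Continuous (fun s : ℝ => (s • p) l) := by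
        simp only [Pi.smul_apply, smul_eq_mul]
        exact continuous_id.mul continuous_const
      exact (h2.mul (ev_cont_s _ p)).sub this
    have hlc : ∀ j, Continuous (fun s : ℝ => lin (fun i j => N i j (s • p)) p j) := by
      intro j
      exact (((hNc j 0).mul continuous_const).add ((hNc j 1).mul continuous_const)).add
        ((hNc j 2).mul continuous_const)
    have := cont_ext (f := fun s : ℝ => ev (h i 0) (s • p) 0 0 * lin (fun i j => N i j (s • p)) p 0
      + ev (h i 1) (s • p) 0 0 * lin (fun i j => N i j (s • p)) p 1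
      + ev (h i 2) (s • p) 0 0 * lin (fun i j => N i j (s • p)) p 2 - p i)
        ((((ev_cont_s _ p).mul (hlc 0)).add ((ev_cont_s _ p).mul (hlc 1)) |>.add
          ((ev_cont_s _ p).mul (hlc 2))).sub continuous_const) {0} (by simp) (by
          intro s hs
          have hs' : s ≠ 0 := hs
          have h2 := F2 (s • p) i
          rw [← hNG, ← hNG, ← hNG] at h2
          apply mul_left_cancel₀ hs'
          simp only [lin, Pi.smul_apply, smul_eq_mul] at h2 ⊢
          linarith) t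
    linarith
  have hdot0 : ∀ p : Fin 3 → ℝ, nsq p = 1 → (∀ i, p i = 0) → False := by
    intro p hp h0
    simp [nsq, h0] at hp
  apply core N ?_ P ?_ ?_ ?_ ?_
  · intro i j
    have h1 : ContDiff ℝ 2 (αα i j) := by
      fin_cases j
      · exact ev_contDiff _
      · exact ev_contDiff _
      · exact ev_contDiff _
    exact ((contDiff_apply ℝ ℝ j).mul (ev_contDiff _)).sub h1
  · rw [contDiff_pi]
    intro j
    exact ev_contDiff _
  · intro t p hp h0
    apply hdot0 p hp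
    intro i
    have := H1 t p i
    rw [h0] at this
    simpa using this.symm
  · intro p hp x y hxy h0
    have hz : ∀ j, x * G j p + y * P p j = 0 := by
      intro j
      have := congrFun h0 j
      simp only [Pi.add_apply, Pi.smul_apply, smul_eq_mul, Pi.zero_apply] at this
      rw [hNG] at this
      exact this
    have hx : x = 0 := by
      by_contra hx
      apply hdot0 p hp
      intro i
      apply mul_left_cancel₀ hx
      have e1 := F2 p i
      have e2 := F3 p hp i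
      have z0 := hz 0
      have z1 := hz 1
      have z2 := hz 2
      rw [mul_zero, ← e1]
      linear_combination ev (h i 0) p 0 0 * z0 + ev (h i 1) p 0 0 * z1 + ev (h i 2) p 0 0 * z2
        - y * e2
    have hy : y = 0 := by
      by_contra hy
      apply hdot0 p hp
      intro i
      apply mul_left_cancel₀ hy
      have e1 := F5 p hp i
      have e2 := F4 p hp i
      have z0 := hz 0
      have z1 := hz 1
      have z2 := hz 2
      rw [mul_zero, ← e2]
      linear_combination ev (k i 0) p 0 0 * z0 + ev (k i 1) p 0 0 * z1 + ev (k i 2) p 0 0 * z2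
        - x * e1
    rw [hx, hy] at hxy
    norm_num at hxy
  · set H : Fin 3 → Fin 3 → ℝ := fun i j => ev (h i j) 0 0 0 with hH
    set L : Fin 3 → Fin 3 → ℝ := fun i j => N i j 0 with hL
    have hid : ∀ p : Fin 3 → ℝ, lin H (lin L p) = p := by
      intro p
      funext i
      have := H1 0 p i
      simp only [zero_smul] at this
      exact this
    have h1 := D_lin H (lin L ![1, 0, 0]) (lin L ![0, 1, 0]) (lin L ![0, 0, 1])
    rw [hid, hid, hid, D_lin] at h1
    intro h0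
    have : D (L 0) (L 1) (L 2) = 0 := h0
    rw [this] at h1
    simp [D] at h1

/-- the minimal number of elements needed to generate the `R`-module `M` -/
noncomputable def mu (R M : Type*) [CommRing R] [AddCommGroup M] [Module R M] : ℕ :=
  sInf {n : ℕ | ∃ v : Fin n → M, Submodule.span R (Set.range v) = ⊤}

lemma gen_mono {R M : Type*} [CommRing R] [AddCommGroup M] [Module R M] {n m : ℕ} (hnm : n ≤ m)
    (h : ∃ v : Fin n → M, Submodule.span R (Set.range v) = ⊤) :
    ∃ v : Fin m → M, Submodule.span R (Set.range v) = ⊤ := by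
  obtain ⟨v, hv⟩ := h
  refine ⟨fun i => if h : (i : ℕ) < n then v ⟨i, h⟩ else 0, ?_⟩
  rw [eq_top_iff, ← hv]
  apply Submodule.span_mono
  rintro x ⟨i, rfl⟩
  exact ⟨⟨i, lt_of_lt_of_le i.2 hnm⟩, by simp⟩

lemma mu_eq {R M : Type*} [CommRing R] [AddCommGroup M] [Module R M] {n : ℕ}
    (h : ∃ v : Fin (n + 1) → M, Submodule.span R (Set.range v) = ⊤)
    (h' : ¬ ∃ v : Fin n → M, Submodule.span R (Set.range v) = ⊤) : mu R M = n + 1 := by
  apply le_antisymm
  · exact Nat.sInf_le h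
  · have hne : {n : ℕ | ∃ v : Fin n → M, Submodule.span R (Set.range v) = ⊤}.Nonempty := ⟨_, h⟩
    have hm := Nat.sInf_mem hne
    by_contra hlt
    have hlt' : sInf {n : ℕ | ∃ v : Fin n → M, Submodule.span R (Set.range v) = ⊤} ≤ n := by
      unfold mu at hlt; omega
    exact h' (gen_mono hlt' hm)

/-- The ideal `(x²+y²+z²-1, u, v) ∩ (x, y, z)` of `ℝ[x,y,z,u,v]`. -/
noncomputable def J : Ideal (MvPolynomial (Fin 5) ℝ) := I1 ⊓ I2

noncomputable def e1 : MvPolynomial (Fin 5) ℝ := ph ^ 2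

noncomputable def r2 : MvPolynomial (Fin 5) ℝ := X 0 ^ 2 + X 1 ^ 2 + X 2 ^ 2

noncomputable def e2 : MvPolynomial (Fin 5) ℝ := r2 * (r2 - 2 * ph)

lemma e12 : e1 + e2 = 1 := by
  unfold e1 e2
  have : ph = r2 - 1 := rfl
  rw [this]; ring

lemma ph_mem : ph ∈ I1 := Ideal.subset_span (by simp)

lemma e1_mem : e1 ∈ I1 ^ 2 := Ideal.pow_mem_pow ph_mem 2

lemma e2_mem : e2 ∈ I2 ^ 2 := by
  have h0 := X_mem_I2 0
  have h1 := X_mem_I2 1
  have h2 := X_mem_I2 2
  have : r2 ∈ I2 ^ 2 := by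
    unfold r2
    refine Ideal.add_mem _ (Ideal.add_mem _ ?_ ?_) ?_
    · exact Ideal.pow_mem_pow h0 2
    · exact Ideal.pow_mem_pow h1 2
    · exact Ideal.pow_mem_pow h2 2
  exact Ideal.mul_mem_right _ _ this

lemma inf_sq_le {f : MvPolynomial (Fin 5) ℝ} (h1 : f ∈ I1 ^ 2) (h2 : f ∈ I2 ^ 2) : f ∈ J ^ 2 := by
  have hle : I1 * I2 ≤ J := Ideal.mul_le_inf
  have hle2 : I1 ^ 2 * I2 ^ 2 ≤ J ^ 2 := by
    rw [← mul_pow]; exact Ideal.pow_right_mono hle 2
  have : f = e1 * f + f * e2 := by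
    have := e12
    calc f = (e1 + e2) * f := by rw [this]; ring
    _ = _ := by ring
  rw [this]
  apply Ideal.add_mem
  · exact hle2 (Ideal.mul_mem_mul e1_mem h2)
  · exact hle2 (Ideal.mul_mem_mul h1 e2_mem)

/-- the generators of `I₁` -/
noncomputable def g : Fin 3 → MvPolynomial (Fin 5) ℝ := ![ph, X 3, X 4]

/-- three elements of `J` generating `J` modulo `J²` -/
noncomputable def wv (i : Fin 3) : MvPolynomial (Fin 5) ℝ := g i * e2 + X (em i) * e1

lemma g_mem (i : Fin 3) : g i ∈ I1 := by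
  apply Ideal.subset_span
  fin_cases i <;> simp [g]

lemma e1_mem1 : e1 ∈ I1 := Ideal.pow_le_self (by norm_num) e1_mem
lemma e2_mem1 : e2 ∈ I2 := Ideal.pow_le_self (by norm_num) e2_mem

lemma wv_mem (i : Fin 3) : wv i ∈ J := by
  refine ⟨?_, ?_⟩
  · exact Ideal.add_mem _ (Ideal.mul_mem_right _ _ (g_mem i)) (Ideal.mul_mem_left _ _ e1_mem1)
  · exact Ideal.add_mem _ (Ideal.mul_mem_left _ _ e2_mem1) (Ideal.mul_mem_right _ _ (X_mem_I2 i))

lemma wv1 (i : Fin 3) : wv i - g i ∈ I1 ^ 2 := by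
  have : wv i - g i = (X (em i) - g i) * e1 := by
    unfold wv
    linear_combination g i * e12
  rw [this]
  exact Ideal.mul_mem_left _ _ e1_mem

lemma wv2 (i : Fin 3) : wv i - X (em i) ∈ I2 ^ 2 := by
  have : wv i - X (em i) = (g i - X (em i)) * e2 := by
    unfold wv
    linear_combination X (em i) * e12
  rw [this]
  exact Ideal.mul_mem_left _ _ e2_mem

lemma J_gen {f : MvPolynomial (Fin 5) ℝ} (hf : f ∈ J) :
    ∃ A : Fin 3 → MvPolynomial (Fin 5) ℝ,
      f - (A 0 * wv 0 + A 1 * wv 1 + A 2 * wv 2) ∈ J ^ 2 := by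
  obtain ⟨a, b, c, h1⟩ := Submodule.mem_span_triple.1 hf.1
  obtain ⟨a', b', c', h2⟩ := Submodule.mem_span_triple.1 hf.2
  simp only [smul_eq_mul] at h1 h2
  refine ⟨![a * e2 + a' * e1, b * e2 + b' * e1, c * e2 + c' * e1], inf_sq_le ?_ ?_⟩
  · have hsq : ∀ {x y : MvPolynomial (Fin 5) ℝ}, x ∈ I1 → y ∈ I1 → x * y ∈ I1 ^ 2 := by
      intro x y hx hy
      rw [pow_two]; exact Ideal.mul_mem_mul hx hy
    have key : f - ((a * e2 + a' * e1) * wv 0 + (b * e2 + b' * e1) * wv 1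
        + (c * e2 + c' * e1) * wv 2)
        = -(a * (wv 0 - g 0) + b * (wv 1 - g 1) + c * (wv 2 - g 2))
          + ((a - a') * wv 0 + (b - b') * wv 1 + (c - c') * wv 2) * e1 := by
      have g0 : g 0 = ph := rfl
      have g1 : g 1 = X 3 := rfl
      have g2 : g 2 = X 4 := rfl
      rw [g0, g1, g2, ← h1]
      linear_combination (-(a * wv 0 + b * wv 1 + c * wv 2)) * e12
    show f - ((a * e2 + a' * e1) * wv 0 + (b * e2 + b' * e1) * wv 1
        + (c * e2 + c' * e1) * wv 2) ∈ I1 ^ 2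
    rw [key]
    apply Ideal.add_mem
    · rw [neg_mem_iff]
      refine Ideal.add_mem _ (Ideal.add_mem _ ?_ ?_) ?_
      · exact Ideal.mul_mem_left _ _ (wv1 0)
      · exact Ideal.mul_mem_left _ _ (wv1 1)
      · exact Ideal.mul_mem_left _ _ (wv1 2)
    · exact Ideal.mul_mem_left _ _ e1_mem
  · have key : f - ((a * e2 + a' * e1) * wv 0 + (b * e2 + b' * e1) * wv 1
        + (c * e2 + c' * e1) * wv 2)
        = -(a' * (wv 0 - X 0) + b' * (wv 1 - X 1) + c' * (wv 2 - X 2))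
          + ((a' - a) * wv 0 + (b' - b) * wv 1 + (c' - c) * wv 2) * e2 := by
      rw [← h2]
      linear_combination (-(a' * wv 0 + b' * wv 1 + c' * wv 2)) * e12
    show f - ((a * e2 + a' * e1) * wv 0 + (b * e2 + b' * e1) * wv 1
        + (c * e2 + c' * e1) * wv 2) ∈ I2 ^ 2
    rw [key]
    apply Ideal.add_mem
    · rw [neg_mem_iff]
      refine Ideal.add_mem _ (Ideal.add_mem _ ?_ ?_) ?_
      · exact Ideal.mul_mem_left _ _ (wv2 0)
      · exact Ideal.mul_mem_left _ _ (wv2 1)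
      · exact Ideal.mul_mem_left _ _ (wv2 2)
    · exact Ideal.mul_mem_left _ _ e2_mem


lemma ev0 {f : MvPolynomial (Fin 5) ℝ} (hf : f ∈ J) : eval (0 : Fin 5 → ℝ) f = 0 := by
  obtain ⟨a', b', c', h2⟩ := Submodule.mem_span_triple.1 hf.2
  rw [← h2]; simp

/-- gradient at the origin in the first three variables -/
noncomputable def grad (f : MvPolynomial (Fin 5) ℝ) : Fin 3 → ℝ :=
  fun i => eval (0 : Fin 5 → ℝ) (pderiv (em i) f)

lemma grad_mul {q f : MvPolynomial (Fin 5) ℝ} (hf : f ∈ J) :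
    grad (q * f) = eval (0 : Fin 5 → ℝ) q • grad f := by
  funext i
  show eval (0 : Fin 5 → ℝ) (pderiv (em i) (q * f)) = _
  rw [Derivation.leibniz]
  simp only [smul_eq_mul, map_add, map_mul, ev0 hf, Pi.smul_apply, grad]
  ring

lemma grad_add (q f : MvPolynomial (Fin 5) ℝ) : grad (q + f) = grad q + grad f := by
  funext i
  simp [grad]

lemma grad_sq {f : MvPolynomial (Fin 5) ℝ} (hf : f ∈ J ^ 2) : grad f = 0 := by
  rw [pow_two] at hf
  refine Submodule.mul_induction_on hf ?_ ?_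
  · intro m hm n hn
    rw [grad_mul hn, ev0 hm, zero_smul]
  · intro x y hx hy
    rw [grad_add, hx, hy, add_zero]

lemma grad_phX (i : Fin 3) : grad (ph * X (em i)) = - Pi.single i 1 := by
  funext j
  fin_cases i <;> fin_cases j <;> simp [grad, ph, em, pderiv_X]

lemma phX_mem (i : Fin 3) : ph * X (em i) ∈ J :=
  ⟨Ideal.mul_mem_right _ _ ph_mem, Ideal.mul_mem_left _ _ (X_mem_I2 i)⟩

lemma cot_three : ∃ v : Fin 3 → J.Cotangent,
    Submodule.span (MvPolynomial (Fin 5) ℝ) (Set.range v) = ⊤ := by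
  refine ⟨fun i => J.toCotangent ⟨wv i, wv_mem i⟩, ?_⟩
  rw [eq_top_iff]
  rintro x -
  obtain ⟨⟨f, hf⟩, rfl⟩ := J.toCotangent_surjective x
  obtain ⟨A, hA⟩ := J_gen hf
  have : J.toCotangent ⟨f, hf⟩ = A 0 • J.toCotangent ⟨wv 0, wv_mem 0⟩
      + A 1 • J.toCotangent ⟨wv 1, wv_mem 1⟩ + A 2 • J.toCotangent ⟨wv 2, wv_mem 2⟩ := by
    rw [← map_smul, ← map_smul, ← map_smul, ← map_add, ← map_add, Ideal.toCotangent_eq]
    exact hA
  rw [this]
  refine Submodule.add_mem _ (Submodule.add_mem _ ?_ ?_) ?_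
  · exact Submodule.smul_mem _ _ (Submodule.subset_span ⟨0, rfl⟩)
  · exact Submodule.smul_mem _ _ (Submodule.subset_span ⟨1, rfl⟩)
  · exact Submodule.smul_mem _ _ (Submodule.subset_span ⟨2, rfl⟩)

lemma cot_not_two : ¬ ∃ v : Fin 2 → J.Cotangent,
    Submodule.span (MvPolynomial (Fin 5) ℝ) (Set.range v) = ⊤ := by
  rintro ⟨v, hv⟩
  have hlift : ∀ j, ∃ f : J, J.toCotangent f = v j := fun j => J.toCotangent_surjective (v j)
  choose F hF using hlift
  have key : ∀ i : Fin 3, ∃ s t : ℝ, - Pi.single i 1 = s • grad (F 0) + t • grad (F 1) := by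
    intro i
    have h1 : J.toCotangent ⟨ph * X (em i), phX_mem i⟩ ∈
        Submodule.span (MvPolynomial (Fin 5) ℝ) (Set.range v) := by rw [hv]; trivial
    obtain ⟨c, hc⟩ := (Submodule.mem_span_range_iff_exists_fun _).1 h1
    rw [Fin.sum_univ_two, ← hF, ← hF, ← map_smul, ← map_smul, ← map_add, Ideal.toCotangent_eq] at hc
    have h2 := grad_sq hc
    have h3 : grad (c 0 * (F 0 : MvPolynomial (Fin 5) ℝ) + c 1 * (F 1 : MvPolynomial (Fin 5) ℝ))
        = grad (ph * X (em i)) := by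
      have : c 0 * (F 0 : MvPolynomial (Fin 5) ℝ) + c 1 * (F 1 : MvPolynomial (Fin 5) ℝ)
        = (((c 0 • F 0 + c 1 • F 1 : J) : MvPolynomial (Fin 5) ℝ) - ph * X (em i))
          + ph * X (em i) := by
        simp
      rw [this, grad_add, h2, zero_add]
    rw [grad_add, grad_mul (F 0).2, grad_mul (F 1).2, grad_phX] at h3
    exact ⟨_, _, h3.symm⟩
  obtain ⟨s0, t0, h0⟩ := key 0
  obtain ⟨s1, t1, h1⟩ := key 1
  obtain ⟨s2, t2, h2⟩ := key 2
  have : D (- Pi.single 0 1 : Fin 3 → ℝ) (- Pi.single 1 1) (- Pi.single 2 1) = 0 := by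
    rw [h0, h1, h2]
    simp only [D, Pi.add_apply, Pi.smul_apply, smul_eq_mul]
    ring
  norm_num [D, Pi.single_apply, Fin.ext_iff] at this

lemma J_not_three : ¬ ∃ v : Fin 3 → J,
    Submodule.span (MvPolynomial (Fin 5) ℝ) (Set.range v) = ⊤ := by
  rintro ⟨v, hv⟩
  apply not_three (fun j => (v j : MvPolynomial (Fin 5) ℝ))
  have h := congrArg (Submodule.map (Submodule.subtype J)) hv
  rw [Submodule.map_span, Submodule.map_top, Submodule.range_subtype, ← Set.range_comp] at h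
  exact h

lemma J_four : ∃ v : Fin 4 → J,
    Submodule.span (MvPolynomial (Fin 5) ℝ) (Set.range v) = ⊤ := by
  set w' : Fin 3 → J := fun i => ⟨wv i, wv_mem i⟩ with hw'
  set S : Ideal (MvPolynomial (Fin 5) ℝ) := Ideal.span (Set.range wv) with hS
  have hfg : (J : Ideal (MvPolynomial (Fin 5) ℝ)).FG := IsNoetherian.noetherian J
  have hle : J ≤ S ⊔ J • J := by
    intro f hf
    obtain ⟨A, hA⟩ := J_gen hf
    have h1 : A 0 * wv 0 + A 1 * wv 1 + A 2 * wv 2 ∈ S := by
      refine Ideal.add_mem _ (Ideal.add_mem _ ?_ ?_) ?_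
      · exact Ideal.mul_mem_left _ _ (Ideal.subset_span ⟨0, rfl⟩)
      · exact Ideal.mul_mem_left _ _ (Ideal.subset_span ⟨1, rfl⟩)
      · exact Ideal.mul_mem_left _ _ (Ideal.subset_span ⟨2, rfl⟩)
    have h2 : f - (A 0 * wv 0 + A 1 * wv 1 + A 2 * wv 2) ∈ J • J := by
      rw [smul_eq_mul, ← pow_two]; exact hA
    have : f = (A 0 * wv 0 + A 1 * wv 1 + A 2 * wv 2)
        + (f - (A 0 * wv 0 + A 1 * wv 1 + A 2 * wv 2)) := by ring
    rw [this]
    exact Submodule.add_mem_sup h1 h2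
  obtain ⟨r, hr1, hr2⟩ := Submodule.exists_sub_one_mem_and_smul_le_of_fg_of_le_sup
    (I := J) (N := S) (N' := J) (P := J) hfg le_rfl hle
  have hs : 1 - r ∈ J := by
    have := J.neg_mem hr1
    simpa using this
  refine ⟨Fin.snoc w' ⟨1 - r, hs⟩, ?_⟩
  rw [eq_top_iff]
  rintro ⟨f, hf⟩ -
  have h3 : r * f ∈ S := hr2 (Submodule.smul_mem_pointwise_smul f r J hf)
  obtain ⟨c, hc⟩ := (Ideal.mem_span_range_iff_exists_fun).1 h3
  rw [Fin.sum_univ_three] at hc
  have h4 : (⟨f, hf⟩ : J) = c 0 • w' 0 + c 1 • w' 1 + c 2 • w' 2 + f • ⟨1 - r, hs⟩ := by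
    apply Subtype.ext
    simp only [Submodule.coe_add, Submodule.coe_smul, smul_eq_mul, w']
    rw [hc]; ring
  rw [h4]
  have m : ∀ i : Fin 3, w' i ∈ Set.range (Fin.snoc w' (⟨1 - r, hs⟩ : J) : Fin 4 → J) :=
    fun i => ⟨Fin.castSucc i, by simp⟩
  refine Submodule.add_mem _ (Submodule.add_mem _ (Submodule.add_mem _ ?_ ?_) ?_) ?_
  · exact Submodule.smul_mem _ _ (Submodule.subset_span (m 0))
  · exact Submodule.smul_mem _ _ (Submodule.subset_span (m 1))
  · exact Submodule.smul_mem _ _ (Submodule.subset_span (m 2))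
  · exact Submodule.smul_mem _ _ (Submodule.subset_span ⟨Fin.last 3, Fin.snoc_last (α := fun _ => J) _ _⟩)

lemma J_ne_top : J ≠ ⊤ := by
  intro h
  have : (1 : MvPolynomial (Fin 5) ℝ) ∈ J := by rw [h]; trivial
  have := ev0 this
  simp at this

theorem mu_cot : mu (MvPolynomial (Fin 5) ℝ) J.Cotangent = 3 := mu_eq cot_three cot_not_two

theorem mu_J : mu (MvPolynomial (Fin 5) ℝ) J = 4 := mu_eq J_four J_not_three

/-- **Counterexample to `μ(I) = μ(I/I²)`.**  The ideal
`J = (x²+y²+z²-1, u, v) ∩ (x, y, z)` of `ℝ[x,y,z,u,v]` (variables `X 0, …, X 4`) is proper,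
`J/J²` is generated by three elements and not by fewer, and `J` is generated by four elements and
not by fewer. -/
theorem result : ∃ J : Ideal (MvPolynomial (Fin 5) ℝ),
    J = Ideal.span {X 0 ^ 2 + X 1 ^ 2 + X 2 ^ 2 - 1, X 3, X 4} ⊓ Ideal.span {X 0, X 1, X 2} ∧
    J ≠ ⊤ ∧
    mu (MvPolynomial (Fin 5) ℝ) J.Cotangent = 3 ∧
    mu (MvPolynomial (Fin 5) ℝ) J = 4 :=
  ⟨J, rfl, J_ne_top, mu_cot, mu_J⟩

end Pool.Agent.Results.MP_260cc8_ag.RealCounterexample
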